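import Pool.Agent.helper91.MM.SpecA

set_option autoImplicit false

namespace Pool.Agent.MM

open Pool.Agent.Scheepers Filter Topology

theorem TWO_emb {α : Type*} (T : Set α) (K : ℕ) :
    (K : ℕ∞) < T.encard ↔ ∃ u : Fin (K + 1) → α, Function.Injective u ∧ ∀ i, u i ∈ T := by
  constructor
  · intro h
    have h1 : ((K + 1 : ℕ) : ℕ∞) ≤ T.encard := by
      push_cast
      exact Order.add_one_le_of_lt h
    obtain ⟨t, ht, hc⟩ := Set.exists_subset_encard_eq h1
    have hfin : t.Finite := Set.finite_of_encard_eq_coe hc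
    have hnc : t.ncard = K + 1 := by
      rw [Set.ncard, hc]
      rfl
    have : Finite t := hfin
    have hcard : Nat.card t = K + 1 := by
      rw [Nat.card_coe_set_eq, hnc]
    let e := Finite.equivFinOfCardEq hcard
    refine ⟨fun i => (e.symm i : α), ?_, fun i => ht (e.symm i).2⟩
    intro i i' hii
    exact e.symm.injective (Subtype.ext hii)
  · rintro ⟨u, hu, hmem⟩
    have h1 : (Set.range u).encard ≤ T.encard := Set.encard_le_encard (by
      rintro _ ⟨i, rfl⟩
      exact hmem i)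
    have h2 : ((K + 1 : ℕ) : ℕ∞) ≤ (Set.range u).encard := by
      have h3 := hu.encard_range
      simpa using h3
    refine lt_of_lt_of_le ?_ (h2.trans h1)
    exact_mod_cast Nat.lt_succ_self K

theorem TWO (h1 : IND_stmt) (h2 : HSH_stmt) : TWO_stmt := by
  intro E _ hE K 𝒰 hop hne hinf
  obtain ⟨g, hg, hgs⟩ := h2 K
  set S := {n | (K : ℕ∞) < (𝒰 n).encard ∧ ∀ x, {U ∈ 𝒰 n | x ∉ U}.encard ≤ (K : ℕ∞)} with hS
  obtain ⟨e, hemono, he⟩ : ∃ e : ℕ → ℕ, StrictMono e ∧ ∀ j, e j ∈ S :=
    ⟨Nat.nth (· ∈ S), Nat.nth_strictMono hinf, fun j => Nat.nth_mem_of_infinite hinf j⟩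
  choose u hui hum using fun j => (TWO_emb _ K).1 (he j).1
  set R : ℕ → Set (E × (ℕ → Bool)) := fun m => {p | ∀ j, m ≤ j → p.1 ∉ u j (g j p.2)} with hR
  have hRc : ∀ m, IsClosed (R m) := by
    intro m
    have h3 : R m = ⋂ j, ⋂ (_ : m ≤ j), ⋃ i, {x | x ∉ u j i} ×ˢ {y | g j y = i} := by
      ext p
      simp only [hR, Set.mem_ofPred_eq, Set.mem_iInter, Set.mem_iUnion, Set.mem_prod]
      constructor
      · intro h j hj
        exact ⟨g j p.2, h j hj, rfl⟩
      · intro h j hj
        obtain ⟨i, hi, hi2⟩ := h j hj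
        rw [hi2]
        exact hi
    rw [h3]
    refine isClosed_iInter fun j => isClosed_iInter fun _ => isClosed_iUnion_of_finite fun i => ?_
    exact ((hop _ _ (hum j i)).isClosed_compl).prod (hg j i).1
  have hRm : Monotone R := by
    intro m m' hm p hp j hj
    exact hp j (hm.trans hj)
  have hDv : ∀ x, (Dv R x).encard ≤ (K : ℕ∞) := by
    intro x
    by_contra hcon
    push Not at hcon
    obtain ⟨y, hy, hym⟩ := (TWO_emb _ K).1 hcon
    choose mm hmm using hym
    obtain ⟨M, hM⟩ : ∃ M, ∀ i, mm i ≤ M :=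
      ⟨Finset.univ.sup mm, fun i => Finset.le_sup (f := mm) (Finset.mem_univ i)⟩
    obtain ⟨j, hj, hgj⟩ := hgs y hy M
    have h3 : ∀ i, x ∉ u j i := by
      intro i
      have h4 := hRm (hM i) (hmm i) j hj
      have h5 : (x, y i).2 = y i := rfl
      rw [h5, hgj i] at h4
      exact h4
    have h4 : (K : ℕ∞) < {U ∈ 𝒰 (e j) | x ∉ U}.encard :=
      (TWO_emb _ K).2 ⟨u j, hui j, fun i => ⟨hum j i, h3 i⟩⟩
    exact absurd ((he j).2 x) (not_le.2 h4)
  obtain ⟨y, hy⟩ := h1 E hE K R hRc hRm hDv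
  classical
  set V : ℕ → Set E := fun n => if h : ∃ j, e j = n then u h.choose (g h.choose y) else (hne n).some
    with hV
  have hVe : ∀ j, V (e j) = u j (g j y) := by
    intro j
    have h3 : ∃ j', e j' = e j := ⟨j, rfl⟩
    have h4 : h3.choose = j := hemono.injective h3.choose_spec
    simp only [hV]
    rw [dif_pos h3, h4]
  refine ⟨V, ?_, ?_⟩
  · intro n
    by_cases h : ∃ j, e j = n
    · obtain ⟨j, rfl⟩ := h
      rw [hVe]
      exact hum j _
    · simp only [hV]
      rw [dif_neg h]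
      exact (hne n).some_mem
  · intro x
    apply Set.infinite_of_forall_exists_gt
    intro m
    have h3 := hy x (m + 1)
    simp only [hR, Set.mem_ofPred_eq] at h3
    push Not at h3
    obtain ⟨j, hj, hj2⟩ := h3
    refine ⟨e j, ?_, ?_⟩
    · show x ∈ V (e j)
      rw [hVe]
      exact hj2
    · have := hemono.id_le j
      simp only [id] at this
      omega

end Pool.Agent.MM
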